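import Pool.Graph.R_pool_sql_team_seeded_f72693b1.W430.IM.ZLOW

/-! MX-2 (EXPM) for helper514, by helper286: part A, residue classes and sums over divisors. -/

set_option autoImplicit false

namespace Pool.Agent.H286.MX

open Finset Filter Pool.Agent.W262.RK Pool.Agent.W307.RT Pool.Agent.W307.IM

/-- half of the classes -/
theorem half (p : ℕ) (hp : p.Prime) (hp2 : p ≠ 2) :
    2 * ((range p).filter (fun c : ℕ => jacobiSym (3 * (c : ℤ)) p = 1)).card ≤ p := by
  have : Fact p.Prime := ⟨hp⟩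
  have h0 : ∑ c ∈ range p, jacobiSym (3 * (c : ℤ)) p = 0 := by
    have h1 : ∀ c ∈ range p, jacobiSym (3 * (c : ℤ)) p =
        quadraticChar (ZMod p) ((3 : ZMod p) * (c : ZMod p)) := by
      intro c _
      rw [← jacobiSym.legendreSym.to_jacobiSym, legendreSym]
      push_cast
      rfl
    rw [sum_congr rfl h1]
    have h2 : ∑ c ∈ range p, quadraticChar (ZMod p) ((3 : ZMod p) * (c : ZMod p)) =
        ∑ x : ZMod p, quadraticChar (ZMod p) (3 * x) := by
      refine Finset.sum_nbij' (fun c => (c : ZMod p)) (fun x => x.val) ?_ ?_ ?_ ?_ ?_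
      · intro c _; exact mem_univ _
      · intro x _; exact mem_range.2 (ZMod.val_lt x)
      · intro c hc; exact ZMod.val_cast_of_lt (mem_range.1 hc)
      · intro x _; exact ZMod.natCast_zmod_val x
      · intro c _; rfl
    rw [h2]
    simp only [map_mul]
    rw [← mul_sum, quadraticChar_sum_zero, mul_zero]
    rw [ZMod.ringChar_zmod_n]
    exact hp2
  have h3 : ∑ c ∈ range p, (1 + jacobiSym (3 * (c : ℤ)) p) = p := by
    rw [sum_add_distrib, h0]
    simp
  have h4 : ∑ c ∈ (range p).filter (fun c : ℕ => jacobiSym (3 * (c : ℤ)) p = 1), (2 : ℤ) ≤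
      ∑ c ∈ range p, (1 + jacobiSym (3 * (c : ℤ)) p) := by
    calc ∑ c ∈ (range p).filter (fun c : ℕ => jacobiSym (3 * (c : ℤ)) p = 1), (2 : ℤ)
        = ∑ c ∈ (range p).filter (fun c : ℕ => jacobiSym (3 * (c : ℤ)) p = 1),
            (1 + jacobiSym (3 * (c : ℤ)) p) :=
          sum_congr rfl fun c hc => by rw [(mem_filter.1 hc).2]; norm_num
      _ ≤ _ := sum_le_sum_of_subset_of_nonneg (filter_subset _ _) fun c _ _ => by
          rcases jacobiSym.trichotomy (3 * (c : ℤ)) p with h | h | h <;> rw [h] <;> norm_num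
  rw [h3, sum_const, nsmul_eq_mul] at h4
  have h5 : ((2 * ((range p).filter (fun c : ℕ => jacobiSym (3 * (c : ℤ)) p = 1)).card : ℕ) : ℤ)
      ≤ (p : ℕ) := by
    push_cast
    linarith
  exact_mod_cast h5

open Classical in
/-- the classes with the condition -/
noncomputable def Qe (e : ℕ) : Finset ℕ :=
  (range e).filter (fun c : ℕ => ∀ p : ℕ, p.Prime → p ∣ e → jacobiSym (3 * (c : ℤ)) p = 1)

theorem jac_mod (p c : ℕ) : jacobiSym (3 * ((c % p : ℕ) : ℤ)) p = jacobiSym (3 * (c : ℤ)) p := by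
  rw [jacobiSym.mod_left, jacobiSym.mod_left (3 * (c : ℤ))]
  congr 1
  push_cast
  rw [Int.mul_emod, Int.emod_emod_of_dvd _ dvd_rfl, ← Int.mul_emod]

theorem card_Qe {e : ℕ} (he : Squarefree e) (h5 : ∀ p : ℕ, p.Prime → p ∣ e → 5 < p) :
    (Qe e).card * 2 ^ e.primeFactors.card ≤ e := by
  classical
  have h1 : (Qe e).card ≤ (e.primeFactors.pi fun p =>
      (range p).filter (fun c : ℕ => jacobiSym (3 * (c : ℤ)) p = 1)).card := by
    refine card_le_card_of_injOn (fun c p _ => c % p) ?_ ?_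
    · intro c hc
      simp only [Qe, coe_filter, Set.mem_ofPred_eq] at hc
      rw [mem_coe, Finset.mem_pi]
      intro p hp
      have hpp := Nat.prime_of_mem_primeFactors hp
      rw [mem_filter, mem_range]
      refine ⟨Nat.mod_lt _ hpp.pos, ?_⟩
      rw [jac_mod]
      exact hc.2 p hpp (Nat.dvd_of_mem_primeFactors hp)
    · intro c hc c' hc' h
      simp only [Qe, coe_filter, Set.mem_ofPred_eq, mem_range] at hc hc'
      have h2 : ∀ p ∈ e.primeFactors, c ≡ c' [MOD p] := by
        intro p hp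
        exact congrFun (congrFun h p) hp
      have h3 : e ∣ (Int.natAbs ((c : ℤ) - c')) := by
        rw [← Nat.prod_primeFactors_of_squarefree he]
        refine Finset.prod_primes_dvd _ (fun p hp => (Nat.prime_of_mem_primeFactors hp).prime) ?_
        intro p hp
        rw [← Int.natCast_dvd]
        exact (Nat.modEq_iff_dvd.1 (h2 p hp).symm)
      by_contra hne
      have h4 : 0 < Int.natAbs ((c : ℤ) - c') := by omega
      have h6 := Nat.le_of_dvd h4 h3
      omega
  rw [card_pi] at h1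
  calc (Qe e).card * 2 ^ e.primeFactors.card
      ≤ (∏ p ∈ e.primeFactors, ((range p).filter
          (fun c : ℕ => jacobiSym (3 * (c : ℤ)) p = 1)).card) * 2 ^ e.primeFactors.card :=
        Nat.mul_le_mul_right _ h1
    _ = ∏ p ∈ e.primeFactors, (2 * ((range p).filter
          (fun c : ℕ => jacobiSym (3 * (c : ℤ)) p = 1)).card) := by
        rw [prod_mul_distrib, prod_const]
        ring
    _ ≤ ∏ p ∈ e.primeFactors, p := prod_le_prod' fun p hp => by
        have hpp := Nat.prime_of_mem_primeFactors hp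
        have := h5 p hpp (Nat.dvd_of_mem_primeFactors hp)
        exact half p hpp (by omega)
    _ = e := Nat.prod_primeFactors_of_squarefree he

/-- Cauchy's inequality over the classes -/
theorem cauchy (R Q : Finset ℕ) (e : ℕ) (X : ℕ → ℝ) (hX : ∀ a, 0 ≤ X a)
    (hQ : ∀ a ∈ R, X a ≠ 0 → a % e ∈ Q) :
    (∑ a ∈ R, X a) ^ 2 ≤ Q.card * ∑ a ∈ R, ∑ b ∈ R, if a % e = b % e then X a * X b else 0 := by
  classical
  have h1 : ∑ a ∈ R, X a = ∑ c ∈ Q, ∑ a ∈ R, if a % e = c then X a else 0 := by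
    rw [sum_comm]
    refine sum_congr rfl fun a ha => ?_
    rw [sum_ite_eq]
    split_ifs with h
    · rfl
    · by_contra hne
      exact h (hQ a ha hne)
  rw [h1]
  refine sq_sum_le_card_mul_sum_sq.trans ?_
  refine mul_le_mul_of_nonneg_left ?_ (Nat.cast_nonneg _)
  have h2 : ∀ c ∈ Q, (∑ a ∈ R, if a % e = c then X a else 0) ^ 2 =
      ∑ a ∈ R, ∑ b ∈ R, (if a % e = c then X a else 0) * (if b % e = c then X b else 0) := by
    intro c _
    rw [sq, sum_mul_sum]
  rw [sum_congr rfl h2, sum_comm]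
  refine sum_le_sum fun a ha => ?_
  rw [sum_comm]
  refine sum_le_sum fun b hb => ?_
  have h3 : ∑ c ∈ Q, (if a % e = c then X a else 0) * (if b % e = c then X b else 0) =
      ∑ c ∈ Q, (if a % e = c then (X a * (if b % e = a % e then X b else 0)) else 0) := by
    refine sum_congr rfl fun c _ => ?_
    split_ifs with h4 h5 h6
    all_goals first | rfl | (subst h4; simp_all) | simp
  rw [h3, sum_ite_eq]
  split_ifs with h7 h8 h9 h10
  · exact le_rfl
  · exact absurd h8.symm h9
  · exact absurd h10.symm h8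
  · simp
  · exact mul_nonneg (hX a) (hX b)
  · exact le_rfl

/-- sums over squarefree numbers -/
theorem sub_sum (F : Finset ℕ) (S : Finset ℕ) {u : ℝ} (hu : 0 ≤ u) (hF : ∀ e ∈ F, Squarefree e)
    (hS : ∀ e ∈ F, e.primeFactors ⊆ S) : ∑ e ∈ F, u ^ e.primeFactors.card ≤ (1 + u) ^ S.card := by
  classical
  have hinj : Set.InjOn (fun e : ℕ => e.primeFactors) F := by
    intro e he e' he' h
    simp only at h
    rw [← Nat.prod_primeFactors_of_squarefree (hF e he),
      ← Nat.prod_primeFactors_of_squarefree (hF e' he'), h]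
  calc ∑ e ∈ F, u ^ e.primeFactors.card = ∑ E ∈ F.image (fun e => e.primeFactors), u ^ E.card := by
        rw [sum_image hinj]
    _ ≤ ∑ E ∈ S.powerset, u ^ E.card := by
        refine sum_le_sum_of_subset_of_nonneg ?_ fun E _ _ => by positivity
        intro E hE
        obtain ⟨e, he, rfl⟩ := mem_image.1 hE
        exact mem_powerset.2 (hS e he)
    _ = (1 + u) ^ S.card := by
        have := Finset.sum_pow_mul_eq_add_pow u 1 S
        simp only [one_pow, mul_one] at this
        rw [this, add_comm]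

/-- powers of `K + 2` and divisors -/
theorem pow_div (K n : ℕ) (hn : n ≠ 0) :
    (K + 2) ^ n.primeFactors.card ≤ ∑ d ∈ n.divisors, (K + 1) ^ d.primeFactors.card := by
  classical
  have h1 : (K + 2) ^ n.primeFactors.card = ∑ E ∈ n.primeFactors.powerset, (K + 1) ^ E.card := by
    have := Finset.sum_pow_mul_eq_add_pow (K + 1) 1 n.primeFactors
    simp only [one_pow, mul_one] at this
    rw [this]
  rw [h1]
  have hpf : ∀ E ∈ n.primeFactors.powerset, (∏ p ∈ E, p).primeFactors = E := by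
    intro E hE
    exact Nat.primeFactors_prod fun p hp =>
      Nat.prime_of_mem_primeFactors (mem_powerset.1 hE hp)
  have hinj : Set.InjOn (fun E : Finset ℕ => ∏ p ∈ E, p) (n.primeFactors.powerset : Set _) := by
    intro E hE E' hE' h
    simp only at h
    rw [← hpf E hE, ← hpf E' hE', h]
  calc ∑ E ∈ n.primeFactors.powerset, (K + 1) ^ E.card
      = ∑ E ∈ n.primeFactors.powerset, (K + 1) ^ (∏ p ∈ E, p).primeFactors.card :=
        sum_congr rfl fun E hE => by rw [hpf E hE]
    _ = ∑ d ∈ n.primeFactors.powerset.image (fun E => ∏ p ∈ E, p),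
          (K + 1) ^ d.primeFactors.card := by rw [sum_image hinj]
    _ ≤ _ := by
        refine sum_le_sum_of_subset_of_nonneg ?_ fun _ _ _ => Nat.zero_le _
        intro d hd
        obtain ⟨E, hE, rfl⟩ := mem_image.1 hd
        rw [Nat.mem_divisors]
        refine ⟨?_, hn⟩
        exact (Finset.prod_dvd_prod_of_subset _ _ _ (mem_powerset.1 hE)).trans
          (Nat.prod_primeFactors_dvd n)

/-- sums over divisors -/
theorem div_sum (N : ℕ) (f : ℕ → ℝ) (hf : ∀ d, 0 ≤ f d) :
    ∑ n ∈ Icc 1 N, ∑ d ∈ n.divisors, f d ≤ ∑ m ∈ Icc 1 N, ∑ d ∈ Icc 1 (N / m), f d := by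
  classical
  rw [sum_sigma', sum_sigma']
  have hinj : Set.InjOn (fun x : (_ : ℕ) × ℕ => (⟨x.1 / x.2, x.2⟩ : (_ : ℕ) × ℕ))
      ((Icc 1 N).sigma fun n => n.divisors : Finset _) := by
    rintro ⟨n, d⟩ hx ⟨n', d'⟩ hx' h
    rw [mem_coe, mem_sigma, Nat.mem_divisors] at hx hx'
    simp only [Sigma.mk.injEq, heq_eq_eq] at h
    obtain ⟨h1, h2⟩ := h
    simp only at hx hx'
    subst h2
    have h3 : n = n' := by
      rw [← Nat.div_mul_cancel hx.2.1, ← Nat.div_mul_cancel hx'.2.1, h1]
    subst h3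
    rfl
  calc ∑ x ∈ (Icc 1 N).sigma (fun n => n.divisors), f x.2
      = ∑ x ∈ ((Icc 1 N).sigma (fun n => n.divisors)).image
          (fun x : (_ : ℕ) × ℕ => (⟨x.1 / x.2, x.2⟩ : (_ : ℕ) × ℕ)), f x.2 := by
        rw [sum_image hinj]
    _ ≤ _ := by
        refine sum_le_sum_of_subset_of_nonneg ?_ fun x _ _ => hf _
        intro y hy
        obtain ⟨⟨n, d⟩, hx, rfl⟩ := mem_image.1 hy
        rw [mem_sigma, Nat.mem_divisors, mem_Icc] at hx
        simp only at hx
        obtain ⟨⟨h1, h2⟩, h3, h4⟩ := hx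
        have hd : 0 < d := Nat.pos_of_dvd_of_pos h3 (by omega)
        have hnd : 0 < n / d := Nat.div_pos (Nat.le_of_dvd (by omega) h3) hd
        rw [mem_sigma, mem_Icc, mem_Icc]
        refine ⟨⟨hnd, (Nat.div_le_self _ _).trans h2⟩, hd, ?_⟩
        rw [Nat.le_div_iff_mul_le hnd]
        calc d * (n / d) = n := Nat.mul_div_cancel' h3
          _ ≤ N := h2

theorem inv_sum (N : ℕ) : ∑ m ∈ Icc 1 N, 1 / (m : ℝ) ≤ 1 + Real.log N := by
  have h := harmonic_le_one_add_log N
  rw [harmonic_eq_sum_Icc] at h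
  push_cast at h
  simpa only [one_div] using h

/-- the mean value of `(K + 1) ^ ω(n)` -/
theorem omega_sum (K N : ℕ) :
    ∑ n ∈ Icc 1 N, ((K : ℝ) + 1) ^ n.primeFactors.card ≤ N * (1 + Real.log N) ^ K := by
  induction K generalizing N with
  | zero => simp
  | succ K ih =>
    have hlog : ∀ M : ℕ, 0 ≤ Real.log M := fun M => Real.log_natCast_nonneg M
    have h1 : ∑ n ∈ Icc 1 N, (((K + 1 : ℕ) : ℝ) + 1) ^ n.primeFactors.card ≤
        ∑ n ∈ Icc 1 N, ∑ d ∈ n.divisors, ((K : ℝ) + 1) ^ d.primeFactors.card := by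
      refine sum_le_sum fun n hn => ?_
      have h2 := pow_div K n (by rw [mem_Icc] at hn; omega)
      have h3 : (((K + 2) ^ n.primeFactors.card : ℕ) : ℝ) ≤
          ((∑ d ∈ n.divisors, (K + 1) ^ d.primeFactors.card : ℕ) : ℝ) := by exact_mod_cast h2
      push_cast at h3 ⊢
      rw [show (K : ℝ) + 1 + 1 = K + 2 by ring]
      exact h3
    refine h1.trans ((div_sum N _ fun d => by positivity).trans ?_)
    calc ∑ m ∈ Icc 1 N, ∑ d ∈ Icc 1 (N / m), ((K : ℝ) + 1) ^ d.primeFactors.card
        ≤ ∑ m ∈ Icc 1 N, ((N / m : ℕ) : ℝ) * (1 + Real.log ((N / m : ℕ) : ℝ)) ^ K :=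
          sum_le_sum fun m _ => ih (N / m)
      _ ≤ ∑ m ∈ Icc 1 N, ((N : ℝ) * (1 + Real.log N) ^ K) * (1 / (m : ℝ)) := by
          refine sum_le_sum fun m hm => ?_
          rw [mem_Icc] at hm
          have h4 : ((N / m : ℕ) : ℝ) ≤ N / m := Nat.cast_div_le
          have hNm : 1 ≤ N / m := (Nat.one_le_div_iff (by omega)).2 hm.2
          have h5 : Real.log ((N / m : ℕ) : ℝ) ≤ Real.log N :=
            Real.log_le_log (by exact_mod_cast hNm) (by exact_mod_cast Nat.div_le_self N m)
          have h6 := hlog (N / m)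
          calc ((N / m : ℕ) : ℝ) * (1 + Real.log ((N / m : ℕ) : ℝ)) ^ K
              ≤ ((N : ℝ) / m) * (1 + Real.log N) ^ K := by gcongr
            _ = _ := by ring
      _ ≤ ((N : ℝ) * (1 + Real.log N) ^ K) * (1 + Real.log N) := by
          rw [← mul_sum]
          have := hlog N
          exact mul_le_mul_of_nonneg_left (inv_sum N) (by positivity)
      _ = _ := by ring

end Pool.Agent.H286.MX
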