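import Pool.Agent.H286.MX.A

/-! MX-2 (EXPM) for helper514, by helper286: part B, the proof. -/

set_option autoImplicit false

namespace Pool.Agent.H286.MX

open Finset Filter Pool.Agent.W262.RK Pool.Agent.W307.IM
open Pool.Agent.W430.IM.ZLOW (cz_nonneg me_mem)

/-- the condition -/
def Cnd (e a : ℕ) : Prop := ∀ p : ℕ, p.Prime → p ∣ e → jacobiSym (3 * (a : ℤ)) p = 1

open Classical in
/-- the summands of `AE` -/
noncomputable def Xe (z : ℝ) (w e a : ℕ) : ℝ := if Cnd e a then cz z w a else 0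

open Classical in
/-- the sum over the moduli -/
noncomputable def WW (A K0 T : ℕ) (u : ℝ) (a b : ℕ) : ℝ :=
  ∑ e ∈ (ME A K0 T).filter (fun e => a % e = b % e ∧ Cnd e a), u ^ e.primeFactors.card

theorem cz_zero (z : ℝ) (w : ℕ) : cz z w 0 = 0 := by
  simp [cz]

theorem AE_eq (z : ℝ) (w T e : ℕ) : AE z w T e = ∑ a ∈ Icc 1 T, Xe z w e a := by
  classical
  have h1 : AE z w T e = ∑ a ∈ range (T + 1), Xe z w e a := by
    unfold AE Xe Cnd
    rw [sum_filter]
  rw [h1]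
  symm
  refine sum_subset (fun a ha => ?_) (fun a ha ha' => ?_)
  · rw [mem_Icc] at ha
    rw [mem_range]
    omega
  · rw [mem_range] at ha
    rw [mem_Icc] at ha'
    have : a = 0 := by omega
    subst this
    unfold Xe
    rw [cz_zero]
    simp

theorem Xe_nonneg {z : ℝ} (hz : 0 < z) (w e a : ℕ) : 0 ≤ Xe z w e a := by
  unfold Xe
  split_ifs
  · exact cz_nonneg hz w a
  · exact le_rfl

theorem ME_sq {A K0 T e : ℕ} (he : e ∈ ME A K0 T) : Squarefree e := by
  classical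
  unfold ME at he
  exact dv_squarefree (mem_filter.1 he).1

theorem ME_card {A K0 T e : ℕ} (he : e ∈ ME A K0 T) : e.primeFactors.card ≤ kT K0 T := by
  classical
  unfold ME at he
  exact (mem_filter.1 he).2

/-- one modulus -/
theorem one_mod {A K0 T e : ℕ} (hT : 1 ≤ T) (he : e ∈ ME A K0 T) {z : ℝ} (hz : 0 < z) (w : ℕ) :
    (2 : ℝ) ^ e.primeFactors.card / (e : ℝ) * (AE z w T e) ^ 2 ≤
      ∑ a ∈ Icc 1 T, ∑ b ∈ Icc 1 T, if a % e = b % e then Xe z w e a * Xe z w e b else 0 := by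
  classical
  obtain ⟨he1, hep, _⟩ := me_mem hT he
  have h5 : ∀ p : ℕ, p.Prime → p ∣ e → 5 < p := by
    intro p hp hpe
    have := hep p hp hpe
    unfold wT at this
    omega
  have hQ := card_Qe (ME_sq he) h5
  have hc := cauchy (Icc 1 T) (Qe e) e (Xe z w e) (Xe_nonneg hz w e) (by
    intro a _ ha
    have hcnd : Cnd e a := by
      by_contra hn
      apply ha
      unfold Xe
      rw [if_neg hn]
    unfold Qe
    rw [mem_filter, mem_range]
    refine ⟨Nat.mod_lt _ (by omega), fun p hp hpe => ?_⟩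
    rw [← jac_mod, Nat.mod_mod_of_dvd _ hpe, jac_mod]
    exact hcnd p hp hpe)
  rw [← AE_eq] at hc
  have he0 : (0 : ℝ) < e := by exact_mod_cast he1
  set S : ℝ := ∑ a ∈ Icc 1 T, ∑ b ∈ Icc 1 T, if a % e = b % e then Xe z w e a * Xe z w e b else 0
    with hS
  have hS0 : 0 ≤ S := sum_nonneg fun a _ => sum_nonneg fun b _ => by
    split_ifs
    · exact mul_nonneg (Xe_nonneg hz _ _ _) (Xe_nonneg hz _ _ _)
    · exact le_rfl
  have hQ' : ((Qe e).card : ℝ) * 2 ^ e.primeFactors.card ≤ e := by exact_mod_cast hQ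
  rw [div_mul_eq_mul_div, div_le_iff₀ he0]
  calc (2 : ℝ) ^ e.primeFactors.card * (AE z w T e) ^ 2
      ≤ 2 ^ e.primeFactors.card * ((Qe e).card * S) :=
        mul_le_mul_of_nonneg_left hc (by positivity)
    _ = ((Qe e).card * 2 ^ e.primeFactors.card) * S := by ring
    _ ≤ e * S := mul_le_mul_of_nonneg_right hQ' hS0
    _ = S * e := by ring

/-- the expansion -/
theorem expand {A K0 T : ℕ} (hT : 1 ≤ T) {z u : ℝ} (hz : 0 < z) (hu : 0 ≤ u) (w : ℕ) :
    ∑ e ∈ ME A K0 T, u ^ e.primeFactors.card *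
      (2 ^ e.primeFactors.card / (e : ℝ)) * (AE z w T e) ^ 2 ≤
      ∑ a ∈ Icc 1 T, ∑ b ∈ Icc 1 T, cz z w a * cz z w b * WW A K0 T u a b := by
  classical
  calc ∑ e ∈ ME A K0 T, u ^ e.primeFactors.card *
      (2 ^ e.primeFactors.card / (e : ℝ)) * (AE z w T e) ^ 2
      ≤ ∑ e ∈ ME A K0 T, ∑ a ∈ Icc 1 T, ∑ b ∈ Icc 1 T, u ^ e.primeFactors.card *
          (if a % e = b % e then Xe z w e a * Xe z w e b else 0) := by
        refine sum_le_sum fun e he => ?_
        have h1 := one_mod hT he hz w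
        simp only [← mul_sum]
        rw [mul_assoc]
        exact mul_le_mul_of_nonneg_left h1 (by positivity)
    _ = ∑ a ∈ Icc 1 T, ∑ b ∈ Icc 1 T, ∑ e ∈ ME A K0 T, u ^ e.primeFactors.card *
          (if a % e = b % e then Xe z w e a * Xe z w e b else 0) := by
        rw [sum_comm]
        refine sum_congr rfl fun a _ => ?_
        rw [sum_comm]
    _ ≤ _ := by
        refine sum_le_sum fun a _ => sum_le_sum fun b _ => ?_
        unfold WW
        rw [sum_filter, mul_sum]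
        refine sum_le_sum fun e _ => ?_
        have hca := cz_nonneg hz w a
        have hcb := cz_nonneg hz w b
        have hun : 0 ≤ u ^ e.primeFactors.card := by positivity
        unfold Xe
        by_cases h1 : a % e = b % e
        · by_cases h2 : Cnd e a
          · rw [if_pos h1, if_pos h2, if_pos (show a % e = b % e ∧ Cnd e a from ⟨h1, h2⟩)]
            split_ifs
            · exact le_of_eq (by ring)
            · rw [mul_zero, mul_zero]
              positivity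
          · rw [if_pos h1, if_neg h2, zero_mul, mul_zero, if_neg (fun h => h2 h.2), mul_zero]
        · rw [if_neg h1, mul_zero, if_neg (fun h => h1 h.1), mul_zero]

theorem WW_nonneg {A K0 T : ℕ} {u : ℝ} (hu : 0 ≤ u) (a b : ℕ) : 0 ≤ WW A K0 T u a b := by
  unfold WW
  exact sum_nonneg fun e _ => by positivity

theorem WW_sub {A K0 T : ℕ} {u : ℝ} (hu : 0 ≤ u) (hT : 1 ≤ T) {a b : ℕ} (hab : a ≠ b) :
    WW A K0 T u a b ≤ (1 + u) ^ (S2 a b).card ∧
      WW A K0 T u a b ≤ (1 + u) ^ (Int.natAbs ((a : ℤ) - b)).primeFactors.card := by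
  classical
  have hd : ∀ e : ℕ, a % e = b % e → e ∣ Int.natAbs ((a : ℤ) - b) := by
    intro e h
    rw [← Int.natCast_dvd]
    have h1 : b ≡ a [MOD e] := h.symm
    exact Nat.modEq_iff_dvd.1 h1
  have hne : Int.natAbs ((a : ℤ) - b) ≠ 0 := by omega
  unfold WW
  constructor
  · refine sub_sum _ _ hu (fun e he => ME_sq (mem_filter.1 he).1) fun e he => ?_
    rw [mem_filter] at he
    obtain ⟨he1, hep, _⟩ := me_mem hT he.1
    intro p hp
    have hpp := Nat.prime_of_mem_primeFactors hp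
    have hpd := Nat.dvd_of_mem_primeFactors hp
    unfold S2
    rw [mem_filter, Nat.mem_primeFactors]
    refine ⟨⟨hpp, hpd.trans (hd e he.2.1), hne⟩, ?_, he.2.2 p hpp hpd⟩
    have := hep p hpp hpd
    unfold wT at this
    omega
  · refine sub_sum _ _ hu (fun e he => ME_sq (mem_filter.1 he).1) fun e he => ?_
    rw [mem_filter] at he
    exact Nat.primeFactors_mono (hd e he.2.1) hne

theorem WW_diag {A K0 T : ℕ} {u : ℝ} (hu : 0 ≤ u) (hT : 1 ≤ T) (a b : ℕ) :
    WW A K0 T u a b ≤ (T : ℝ) ^ (1 / 4 : ℝ) * (1 + u) ^ kT K0 T := by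
  classical
  have h1 : WW A K0 T u a b ≤ ∑ e ∈ ME A K0 T, (1 + u) ^ kT K0 T := by
    unfold WW
    refine (sum_le_sum_of_subset_of_nonneg (filter_subset _ _)
      (fun e _ _ => by positivity)).trans (sum_le_sum fun e he => ?_)
    calc u ^ e.primeFactors.card ≤ (1 + u) ^ e.primeFactors.card :=
          pow_le_pow_left₀ hu (by linarith) _
      _ ≤ (1 + u) ^ kT K0 T := pow_le_pow_right₀ (by linarith) (ME_card he)
  refine h1.trans ?_
  rw [sum_const, nsmul_eq_mul]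
  refine mul_le_mul_of_nonneg_right ?_ (by positivity)
  have h2 : ME A K0 T ⊆ Icc 1 ⌊(T : ℝ) ^ (1 / 4 : ℝ)⌋₊ := by
    intro e he
    obtain ⟨he1, _, he2⟩ := me_mem hT he
    rw [mem_Icc]
    exact ⟨he1, Nat.le_floor he2⟩
  have h3 := card_le_card h2
  rw [Nat.card_Icc, Nat.add_sub_cancel] at h3
  calc ((ME A K0 T).card : ℝ) ≤ (⌊(T : ℝ) ^ (1 / 4 : ℝ)⌋₊ : ℝ) := by exact_mod_cast h3
    _ ≤ _ := Nat.floor_le (by positivity)

theorem inj_sum (S R : Finset ℕ) (φ : ℕ → ℕ) (hinj : Set.InjOn φ S) (hm : ∀ x ∈ S, φ x ∈ R)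
    (g : ℕ → ℝ) (hg : ∀ n, 0 ≤ g n) : ∑ x ∈ S, g (φ x) ≤ ∑ y ∈ R, g y := by
  classical
  rw [← sum_image (f := g) hinj]
  refine sum_le_sum_of_subset_of_nonneg (fun y hy => ?_) fun y _ _ => hg y
  obtain ⟨x, hx, rfl⟩ := mem_image.1 hy
  exact hm x hx

theorem two_sum (N a : ℕ) (ha : a ≤ N) (g : ℕ → ℝ) (hg : ∀ n, 0 ≤ g n) :
    ∑ b ∈ Icc 1 N, (if a ≠ b then g (Int.natAbs ((a : ℤ) - b)) else 0) ≤
      2 * ∑ n ∈ Icc 1 N, g n := by
  classical
  have h1 : ∑ b ∈ (Icc 1 N).filter (fun b => b < a), g (a - b) ≤ ∑ n ∈ Icc 1 N, g n := by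
    refine inj_sum _ _ (fun b => a - b) ?_ ?_ g hg
    · intro b hb b' hb' h
      simp only [coe_filter, mem_Icc, Set.mem_ofPred_eq] at hb hb' h
      omega
    · intro b hb
      rw [mem_filter, mem_Icc] at hb
      rw [mem_Icc]
      omega
  have h2 : ∑ b ∈ (Icc 1 N).filter (fun b => a < b), g (b - a) ≤ ∑ n ∈ Icc 1 N, g n := by
    refine inj_sum _ _ (fun b => b - a) ?_ ?_ g hg
    · intro b hb b' hb' h
      simp only [coe_filter, mem_Icc, Set.mem_ofPred_eq] at hb hb' h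
      omega
    · intro b hb
      rw [mem_filter, mem_Icc] at hb
      rw [mem_Icc]
      omega
  have h3 : ∑ b ∈ Icc 1 N, (if a ≠ b then g (Int.natAbs ((a : ℤ) - b)) else 0) =
      ∑ b ∈ (Icc 1 N).filter (fun b => b < a), g (a - b) +
        ∑ b ∈ (Icc 1 N).filter (fun b => a < b), g (b - a) := by
    rw [sum_filter, sum_filter, ← sum_add_distrib]
    refine sum_congr rfl fun b _ => ?_
    rcases lt_trichotomy a b with h | h | h
    · rw [if_pos h.ne, if_neg (by omega), if_pos h, zero_add]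
      congr 1
      omega
    · rw [if_neg (fun h' => h' h), if_neg (by omega), if_neg (by omega), add_zero]
    · rw [if_pos h.ne', if_pos h, if_neg (by omega), add_zero]
      congr 1
      omega
  rw [h3]
  linarith

theorem mult_sum (T p : ℕ) (hp : 0 < p) (g : ℕ → ℝ) :
    ∑ a ∈ (Icc 1 T).filter (fun a => p ∣ a), g a = ∑ a ∈ Icc 1 (T / p), g (p * a) := by
  symm
  refine sum_nbij' (fun a => p * a) (fun a => a / p) ?_ ?_ ?_ ?_ ?_
  · intro a ha
    rw [mem_Icc] at ha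
    rw [mem_filter, mem_Icc]
    refine ⟨⟨Nat.mul_pos hp ha.1, ?_⟩, dvd_mul_right _ _⟩
    calc p * a ≤ p * (T / p) := Nat.mul_le_mul_left _ ha.2
      _ ≤ T := Nat.mul_div_le T p
  · intro a ha
    rw [mem_filter, mem_Icc] at ha
    rw [mem_Icc]
    exact ⟨Nat.div_pos (Nat.le_of_dvd (by omega) ha.2) hp, Nat.div_le_div_right ha.1.2⟩
  · intro a _
    exact Nat.mul_div_cancel_left a hp
  · intro a ha
    rw [mem_filter] at ha
    exact Nat.mul_div_cancel' ha.2
  · intro a _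
    rfl

/-- the weight of a pair -/
noncomputable def V (K a b : ℕ) : ℝ :=
  ((K : ℝ) + 1) ^ (Int.natAbs ((a : ℤ) - b)).primeFactors.card

theorem V_mul (K p a b : ℕ) (hp : p.Prime) (hab : a ≠ b) :
    V K (p * a) (p * b) ≤ ((K : ℝ) + 1) * V K a b := by
  unfold V
  have h1 : Int.natAbs (((p * a : ℕ) : ℤ) - ((p * b : ℕ) : ℤ)) =
      p * Int.natAbs ((a : ℤ) - b) := by
    rw [show ((p * a : ℕ) : ℤ) - ((p * b : ℕ) : ℤ) = (p : ℤ) * ((a : ℤ) - b) by push_cast; ring,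
      Int.natAbs_mul, Int.natAbs_natCast]
  rw [h1, Nat.primeFactors_mul hp.ne_zero (by omega), hp.primeFactors]
  have h2 : ({p} ∪ (Int.natAbs ((a : ℤ) - b)).primeFactors).card ≤
      1 + (Int.natAbs ((a : ℤ) - b)).primeFactors.card := by
    refine (card_union_le _ _).trans ?_
    rw [card_singleton]
  have hK : (1 : ℝ) ≤ (K : ℝ) + 1 := by
    have : (0 : ℝ) ≤ K := Nat.cast_nonneg K
    linarith
  calc ((K : ℝ) + 1) ^ ({p} ∪ (Int.natAbs ((a : ℤ) - b)).primeFactors).card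
      ≤ ((K : ℝ) + 1) ^ (1 + (Int.natAbs ((a : ℤ) - b)).primeFactors.card) :=
        pow_le_pow_right₀ hK h2
    _ = _ := by rw [pow_add, pow_one]

/-- the pairs with a common prime factor -/
theorem pairs_p (K T p : ℕ) (hp : p.Prime) (hT : 1 ≤ T) :
    ∑ a ∈ Icc 1 T, ∑ b ∈ Icc 1 T, (if p ∣ a ∧ p ∣ b ∧ a ≠ b then V K a b else 0) ≤
      2 * ((K : ℝ) + 1) * ((T : ℝ) / p) ^ 2 * (1 + Real.log T) ^ K := by
  classical
  have h1 : ∑ a ∈ Icc 1 T, ∑ b ∈ Icc 1 T, (if p ∣ a ∧ p ∣ b ∧ a ≠ b then V K a b else 0) =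
      ∑ a ∈ (Icc 1 T).filter (fun a => p ∣ a), ∑ b ∈ (Icc 1 T).filter (fun b => p ∣ b),
        (if a ≠ b then V K a b else 0) := by
    rw [sum_filter]
    refine sum_congr rfl fun a _ => ?_
    rw [sum_filter]
    by_cases ha : p ∣ a
    · rw [if_pos ha]
      refine sum_congr rfl fun b _ => ?_
      by_cases hb : p ∣ b
      · by_cases hab : a ≠ b
        · rw [if_pos ⟨ha, hb, hab⟩, if_pos hb, if_pos hab]
        · rw [if_neg (fun h => hab h.2.2), if_pos hb, if_neg hab]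
      · rw [if_neg (fun h => hb h.2.1), if_neg hb]
    · rw [if_neg ha]
      exact sum_eq_zero fun b _ => if_neg fun h => ha h.1
  rw [h1, mult_sum T p hp.pos]
  set N := T / p with hN
  have hVn : ∀ a b, 0 ≤ V K a b := fun a b => by unfold V; positivity
  have hK0 : (0 : ℝ) ≤ (K : ℝ) + 1 := by positivity
  have hlogT : 0 ≤ Real.log T := Real.log_natCast_nonneg T
  calc ∑ a ∈ Icc 1 N, ∑ b ∈ (Icc 1 T).filter (fun b => p ∣ b),
        (if p * a ≠ b then V K (p * a) b else 0)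
      = ∑ a ∈ Icc 1 N, ∑ b ∈ Icc 1 N, (if p * a ≠ p * b then V K (p * a) (p * b) else 0) :=
        sum_congr rfl fun a _ => mult_sum T p hp.pos _
    _ ≤ ∑ a ∈ Icc 1 N, ∑ b ∈ Icc 1 N, ((K : ℝ) + 1) * (if a ≠ b then V K a b else 0) := by
        refine sum_le_sum fun a _ => sum_le_sum fun b _ => ?_
        by_cases hab : a = b
        · subst hab
          simp
        · rw [if_pos hab, if_pos (fun h => hab (Nat.eq_of_mul_eq_mul_left hp.pos h))]
          exact V_mul K p a b hp hab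
    _ ≤ ∑ a ∈ Icc 1 N, ((K : ℝ) + 1) * (2 * ((N : ℝ) * (1 + Real.log N) ^ K)) := by
        refine sum_le_sum fun a ha => ?_
        rw [← mul_sum]
        refine mul_le_mul_of_nonneg_left ?_ hK0
        refine (two_sum N a (mem_Icc.1 ha).2
          (fun n => ((K : ℝ) + 1) ^ n.primeFactors.card) (fun n => by positivity)).trans ?_
        exact mul_le_mul_of_nonneg_left (omega_sum K N) (by norm_num)
    _ = 2 * ((K : ℝ) + 1) * (N : ℝ) ^ 2 * (1 + Real.log N) ^ K := by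
        rw [sum_const, Nat.card_Icc, nsmul_eq_mul, Nat.add_sub_cancel]
        ring
    _ ≤ _ := by
        have h2 : (N : ℝ) ≤ (T : ℝ) / p := Nat.cast_div_le
        have h3 : Real.log N ≤ Real.log T := by
          rcases Nat.eq_zero_or_pos N with h | h
          · rw [h]
            simp only [Nat.cast_zero, Real.log_zero]
            exact hlogT
          · exact Real.log_le_log (by exact_mod_cast h) (by exact_mod_cast Nat.div_le_self T p)
        have h4 : 0 ≤ Real.log N := Real.log_natCast_nonneg N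
        gcongr

/-- the pointwise estimate -/
theorem point {A K0 T K : ℕ} (hT : 1 ≤ T) {s : ℝ} (hs : 0 < s) (hK : (2 : ℝ) ^ s ≤ (K : ℝ) + 1)
    {a b : ℕ} (ha : a ∈ Icc 1 T) (hb : b ∈ Icc 1 T) :
    cz ((2 : ℝ) ^ (-s)) (wT A T) a * cz ((2 : ℝ) ^ (-s)) (wT A T) b *
      WW A K0 T ((2 : ℝ) ^ s - 1) a b ≤
      (if a ≠ b ∧ a.Coprime b then
        (2 : ℝ) ^ (s * (((S2 a b).card : ℝ) - (T2 a b).card)) else 0) +
      (if a = b then (T : ℝ) ^ (1 / 4 : ℝ) * ((2 : ℝ) ^ s) ^ kT K0 T else 0) +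
      ∑ p ∈ (Ioc (wT A T) T).filter Nat.Prime, (if p ∣ a ∧ p ∣ b ∧ a ≠ b then V K a b else 0) := by
  classical
  set z : ℝ := (2 : ℝ) ^ (-s) with hz
  set w := wT A T with hw
  have hz0 : 0 < z := Real.rpow_pos_of_pos (by norm_num) _
  have hz1 : z ≤ 1 := Real.rpow_le_one_of_one_le_of_nonpos (by norm_num) (by linarith)
  have h2s : 1 ≤ (2 : ℝ) ^ s := Real.one_le_rpow (by norm_num) hs.le
  set u : ℝ := (2 : ℝ) ^ s - 1 with hu
  have hu0 : 0 ≤ u := by rw [hu]; linarith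
  have h1u : 1 + u = (2 : ℝ) ^ s := by rw [hu]; ring
  have hVn : ∀ a b, 0 ≤ V K a b := fun a b => by unfold V; positivity
  have t1 : 0 ≤ (if a ≠ b ∧ a.Coprime b then
        (2 : ℝ) ^ (s * (((S2 a b).card : ℝ) - (T2 a b).card)) else 0) := by
    split_ifs
    · positivity
    · exact le_rfl
  have t2 : 0 ≤ (if a = b then (T : ℝ) ^ (1 / 4 : ℝ) * ((2 : ℝ) ^ s) ^ kT K0 T else 0) := by
    split_ifs
    · positivity
    · exact le_rfl
  have t3 : 0 ≤ ∑ p ∈ (Ioc w T).filter Nat.Prime,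
      (if p ∣ a ∧ p ∣ b ∧ a ≠ b then V K a b else 0) :=
    sum_nonneg fun p _ => by
      split_ifs
      · exact hVn a b
      · exact le_rfl
  have hWn : 0 ≤ WW A K0 T u a b := WW_nonneg hu0 a b
  by_cases hca : cz z w a = 0
  · rw [hca, zero_mul, zero_mul]
    positivity
  by_cases hcb : cz z w b = 0
  · rw [hcb, mul_zero, zero_mul]
    positivity
  have hGa : 1 ≤ a ∧ ∀ p : ℕ, p.Prime → p ∣ a → w < p := by
    by_contra hn
    apply hca
    unfold cz
    rw [if_neg hn]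
  have hGb : 1 ≤ b ∧ ∀ p : ℕ, p.Prime → p ∣ b → w < p := by
    by_contra hn
    apply hcb
    unfold cz
    rw [if_neg hn]
  have hca' : cz z w a = z ^ a.primeFactors.card := by
    unfold cz
    rw [if_pos hGa]
  have hcb' : cz z w b = z ^ b.primeFactors.card := by
    unfold cz
    rw [if_pos hGb]
  have hle : cz z w a * cz z w b ≤ 1 := by
    rw [hca', hcb']
    exact mul_le_one₀ (pow_le_one₀ hz0.le hz1) (by positivity) (pow_le_one₀ hz0.le hz1)
  have hleW : cz z w a * cz z w b * WW A K0 T u a b ≤ WW A K0 T u a b := by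
    calc cz z w a * cz z w b * WW A K0 T u a b ≤ 1 * WW A K0 T u a b :=
          mul_le_mul_of_nonneg_right hle hWn
      _ = _ := one_mul _
  by_cases hab : a = b
  · have h3 := WW_diag (A := A) (K0 := K0) hu0 hT a b
    rw [h1u] at h3
    rw [if_pos hab]
    rw [if_pos hab] at t2
    linarith
  · have hsub := WW_sub (A := A) (K0 := K0) hu0 hT hab
    by_cases hcop : a.Coprime b
    · -- the main term
      have h3 : cz z w a * cz z w b * WW A K0 T u a b ≤
          (2 : ℝ) ^ (s * (((S2 a b).card : ℝ) - (T2 a b).card)) := by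
        have hT2 : (T2 a b).card ≤ a.primeFactors.card + b.primeFactors.card := by
          unfold T2
          refine (card_filter_le _ _).trans ?_
          rw [Int.natAbs_mul, Int.natAbs_natCast, Int.natAbs_natCast,
            Nat.primeFactors_mul (by omega) (by omega)]
          exact card_union_le _ _
        rw [hca', hcb', ← pow_add]
        calc z ^ (a.primeFactors.card + b.primeFactors.card) * WW A K0 T u a b
            ≤ z ^ (T2 a b).card * (1 + u) ^ (S2 a b).card :=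
              mul_le_mul (pow_le_pow_of_le_one hz0.le hz1 hT2) hsub.1 hWn (by positivity)
          _ = _ := by
              rw [h1u, hz, ← Real.rpow_mul_natCast (by norm_num), ← Real.rpow_mul_natCast
                (by norm_num), ← Real.rpow_add (by norm_num)]
              congr 1
              ring
      rw [if_pos ⟨hab, hcop⟩]
      linarith
    · -- a common prime factor
      obtain ⟨p, hp, hpa, hpb⟩ := Nat.Prime.not_coprime_iff_dvd.1 hcop
      have hpw : w < p := hGa.2 p hp hpa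
      have hpT : p ≤ T := (Nat.le_of_dvd (by omega) hpa).trans (mem_Icc.1 ha).2
      have hmem : p ∈ (Ioc w T).filter Nat.Prime := by
        rw [mem_filter, mem_Ioc]
        exact ⟨⟨hpw, hpT⟩, hp⟩
      have h4 : V K a b ≤ ∑ p ∈ (Ioc w T).filter Nat.Prime,
          (if p ∣ a ∧ p ∣ b ∧ a ≠ b then V K a b else 0) := by
        refine le_trans (le_of_eq ?_) (single_le_sum (f := fun p =>
          (if p ∣ a ∧ p ∣ b ∧ a ≠ b then V K a b else 0)) (fun q _ => ?_) hmem)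
        · rw [if_pos ⟨hpa, hpb, hab⟩]
        · split_ifs
          · exact hVn a b
          · exact le_rfl
      have h5 : WW A K0 T u a b ≤ V K a b := by
        refine hsub.2.trans ?_
        unfold V
        rw [h1u]
        exact pow_le_pow_left₀ (by positivity) hK _
      linarith

/-- the sum of the pointwise estimates -/
theorem total {A K0 T K : ℕ} (hT : 1 ≤ T) {s : ℝ} (hs : 0 < s) (hK : (2 : ℝ) ^ s ≤ (K : ℝ) + 1) :
    ∑ e ∈ ME A K0 T, ((2 : ℝ) ^ s - 1) ^ e.primeFactors.card *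
      (2 ^ e.primeFactors.card / (e : ℝ)) * (AE ((2 : ℝ) ^ (-s)) (wT A T) T e) ^ 2 ≤
      MS s T + T * ((T : ℝ) ^ (1 / 4 : ℝ) * ((2 : ℝ) ^ s) ^ kT K0 T) +
      2 * ((K : ℝ) + 1) * (T : ℝ) ^ 2 * (1 + Real.log T) ^ K * (1 / (wT A T : ℝ)) := by
  classical
  have hz0 : (0 : ℝ) < (2 : ℝ) ^ (-s) := Real.rpow_pos_of_pos (by norm_num) _
  have h2s : 1 ≤ (2 : ℝ) ^ s := Real.one_le_rpow (by norm_num) hs.le
  refine (expand hT hz0 (by linarith) (wT A T)).trans ?_
  refine (sum_le_sum fun a ha => sum_le_sum fun b hb => point hT hs hK ha hb).trans ?_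
  simp only [sum_add_distrib]
  have h1 : ∑ a ∈ Icc 1 T, ∑ b ∈ Icc 1 T, (if a ≠ b ∧ a.Coprime b then
        (2 : ℝ) ^ (s * (((S2 a b).card : ℝ) - (T2 a b).card)) else 0) = MS s T := by
    unfold MS Pr
    rw [sum_filter, sum_product]
  have h2 : ∑ a ∈ Icc 1 T, ∑ b ∈ Icc 1 T,
      (if a = b then (T : ℝ) ^ (1 / 4 : ℝ) * ((2 : ℝ) ^ s) ^ kT K0 T else 0) =
      T * ((T : ℝ) ^ (1 / 4 : ℝ) * ((2 : ℝ) ^ s) ^ kT K0 T) := by
    have : ∀ a ∈ Icc 1 T, ∑ b ∈ Icc 1 T,
        (if a = b then (T : ℝ) ^ (1 / 4 : ℝ) * ((2 : ℝ) ^ s) ^ kT K0 T else 0) =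
        (T : ℝ) ^ (1 / 4 : ℝ) * ((2 : ℝ) ^ s) ^ kT K0 T := by
      intro a ha
      rw [sum_ite_eq, if_pos ha]
    rw [sum_congr rfl this, sum_const, Nat.card_Icc, nsmul_eq_mul, Nat.add_sub_cancel]
  have h3 : ∑ a ∈ Icc 1 T, ∑ b ∈ Icc 1 T, ∑ p ∈ (Ioc (wT A T) T).filter Nat.Prime,
      (if p ∣ a ∧ p ∣ b ∧ a ≠ b then V K a b else 0) ≤
      2 * ((K : ℝ) + 1) * (T : ℝ) ^ 2 * (1 + Real.log T) ^ K * (1 / (wT A T : ℝ)) := by
    have h4 : ∑ a ∈ Icc 1 T, ∑ b ∈ Icc 1 T, ∑ p ∈ (Ioc (wT A T) T).filter Nat.Prime,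
        (if p ∣ a ∧ p ∣ b ∧ a ≠ b then V K a b else 0) =
        ∑ p ∈ (Ioc (wT A T) T).filter Nat.Prime, ∑ a ∈ Icc 1 T, ∑ b ∈ Icc 1 T,
          (if p ∣ a ∧ p ∣ b ∧ a ≠ b then V K a b else 0) := by
      rw [sum_congr rfl fun a _ => sum_comm]
      exact sum_comm
    rw [h4]
    have hlog : 0 ≤ Real.log T := Real.log_natCast_nonneg T
    have hC : 0 ≤ 2 * ((K : ℝ) + 1) * (T : ℝ) ^ 2 * (1 + Real.log T) ^ K := by positivity
    calc ∑ p ∈ (Ioc (wT A T) T).filter Nat.Prime, ∑ a ∈ Icc 1 T, ∑ b ∈ Icc 1 T,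
          (if p ∣ a ∧ p ∣ b ∧ a ≠ b then V K a b else 0)
        ≤ ∑ p ∈ (Ioc (wT A T) T).filter Nat.Prime,
            2 * ((K : ℝ) + 1) * (T : ℝ) ^ 2 * (1 + Real.log T) ^ K * (((p : ℝ) ^ 2)⁻¹) := by
          refine sum_le_sum fun p hp => ?_
          refine (pairs_p K T p (mem_filter.1 hp).2 hT).trans (le_of_eq ?_)
          rw [div_pow]
          ring
      _ = 2 * ((K : ℝ) + 1) * (T : ℝ) ^ 2 * (1 + Real.log T) ^ K *
            ∑ p ∈ (Ioc (wT A T) T).filter Nat.Prime, (((p : ℝ) ^ 2)⁻¹) := by rw [mul_sum]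
      _ ≤ _ := by
          refine mul_le_mul_of_nonneg_left ?_ hC
          refine (sum_le_sum_of_subset_of_nonneg (filter_subset _ _)
            (fun p _ _ => by positivity)).trans ?_
          rcases le_total (wT A T) T with h | h
          · have hw0 : wT A T ≠ 0 := by unfold wT; omega
            refine (sum_Ioc_inv_sq_le_sub hw0 h).trans ?_
            rw [one_div]
            have : (0 : ℝ) ≤ (T : ℝ)⁻¹ := by positivity
            linarith
          · rw [Ioc_eq_empty (by omega), sum_empty]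
            positivity
  rw [h1, h2]
  linarith

theorem expm : EXPM := by
  intro s K0 hs
  obtain ⟨K, hK⟩ := exists_nat_ge ((2 : ℝ) ^ s)
  have hK' : (2 : ℝ) ^ s ≤ (K : ℝ) + 1 := by linarith
  refine ⟨K + 5, fun A hA => ?_⟩
  have h2s : 1 ≤ (2 : ℝ) ^ s := Real.one_le_rpow (by norm_num) hs.le
  have h2s0 : 0 < (2 : ℝ) ^ s := by linarith
  set B : ℝ := s * K0 * Real.log 2 with hB
  have e1 : ∀ᶠ x : ℝ in atTop, ‖Real.log x ^ (B + 4)‖ ≤
      (1 / (2 * (2 : ℝ) ^ s)) * ‖x ^ (3 / 4 : ℝ)‖ :=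
    (isLittleO_log_rpow_rpow_atTop (B + 4) (by norm_num : (0 : ℝ) < 3 / 4)).def (by positivity)
  have e2 : ∀ᶠ x : ℝ in atTop, max 3 (4 * ((K : ℝ) + 1) * 2 ^ K) ≤ Real.log x :=
    Real.tendsto_log_atTop.eventually_ge_atTop _
  obtain ⟨T0, hT0⟩ := eventually_atTop.1 (tendsto_natCast_atTop_atTop.eventually (e1.and e2))
  refine ⟨T0 + 1, fun T hT => ?_⟩
  obtain ⟨h1, h2⟩ := hT0 T (by omega)
  have hT1 : 1 ≤ T := by omega
  have hTr : (1 : ℝ) ≤ T := by exact_mod_cast hT1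
  have hT0' : (0 : ℝ) < T := by linarith
  set L := Real.log T with hL
  have hL3 : 3 ≤ L := (le_max_left _ _).trans h2
  have hL0 : 0 < L := by linarith
  have hLK : 4 * ((K : ℝ) + 1) * 2 ^ K ≤ L := (le_max_right _ _).trans h2
  have hLL : 0 < Real.log L := Real.log_pos (by linarith)
  refine (total hT1 hs hK').trans ?_
  -- the diagonal
  have hd : (T : ℝ) * ((T : ℝ) ^ (1 / 4 : ℝ) * ((2 : ℝ) ^ s) ^ kT K0 T) ≤
      (T : ℝ) ^ 2 / (2 * L ^ 4) := by
    have hk : (kT K0 T : ℝ) ≤ K0 * Real.log L + 1 := by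
      unfold kT
      push_cast
      have := Nat.floor_le (show 0 ≤ (K0 : ℝ) * Real.log (Real.log T) by
        rw [← hL]; positivity)
      linarith
    have h3 : ((2 : ℝ) ^ s) ^ kT K0 T ≤ (2 : ℝ) ^ s * L ^ B := by
      rw [← Real.rpow_natCast ((2 : ℝ) ^ s)]
      calc ((2 : ℝ) ^ s) ^ (kT K0 T : ℝ) ≤ ((2 : ℝ) ^ s) ^ ((K0 : ℝ) * Real.log L + 1) :=
            Real.rpow_le_rpow_of_exponent_le h2s hk
        _ = (2 : ℝ) ^ s * L ^ B := by
            rw [Real.rpow_add h2s0, Real.rpow_one, mul_comm]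
            congr 1
            rw [← Real.rpow_mul (by norm_num), Real.rpow_def_of_pos (by norm_num),
              Real.rpow_def_of_pos hL0, hB]
            congr 1
            ring
    have h4 : 2 * ((2 : ℝ) ^ s * L ^ B) * L ^ 4 ≤ (T : ℝ) ^ (3 / 4 : ℝ) := by
      rw [Real.norm_of_nonneg (by positivity), Real.norm_of_nonneg (by positivity)] at h1
      have h5 : L ^ (B + 4) = L ^ B * L ^ 4 := by
        rw [Real.rpow_add hL0]
        congr 1
        exact_mod_cast Real.rpow_natCast L 4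
      rw [h5] at h1
      calc 2 * ((2 : ℝ) ^ s * L ^ B) * L ^ 4 = (2 * (2 : ℝ) ^ s) * (L ^ B * L ^ 4) := by ring
        _ ≤ (2 * (2 : ℝ) ^ s) * ((1 / (2 * (2 : ℝ) ^ s)) * (T : ℝ) ^ (3 / 4 : ℝ)) := by gcongr
        _ = _ := by field_simp
    rw [le_div_iff₀ (by positivity)]
    calc (T : ℝ) * ((T : ℝ) ^ (1 / 4 : ℝ) * ((2 : ℝ) ^ s) ^ kT K0 T) * (2 * L ^ 4)
        ≤ (T : ℝ) * ((T : ℝ) ^ (1 / 4 : ℝ) * ((2 : ℝ) ^ s * L ^ B)) * (2 * L ^ 4) := by gcongr
      _ = (T : ℝ) * (T : ℝ) ^ (1 / 4 : ℝ) * (2 * ((2 : ℝ) ^ s * L ^ B) * L ^ 4) := by ring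
      _ ≤ (T : ℝ) * (T : ℝ) ^ (1 / 4 : ℝ) * (T : ℝ) ^ (3 / 4 : ℝ) := by gcongr
      _ = (T : ℝ) ^ 2 := by
          rw [mul_assoc, ← Real.rpow_add hT0', show (1 / 4 : ℝ) + 3 / 4 = 1 by norm_num,
            Real.rpow_one]
          ring
  -- the common factors
  have hc : 2 * ((K : ℝ) + 1) * (T : ℝ) ^ 2 * (1 + L) ^ K * (1 / (wT A T : ℝ)) ≤
      (T : ℝ) ^ 2 / (2 * L ^ 4) := by
    have hw : L ^ (K + 5) ≤ (wT A T : ℝ) := by
      have h3 : L ^ A < (⌊L ^ A⌋₊ : ℝ) + 1 := Nat.lt_floor_add_one _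
      have h4 : L ^ (K + 5) ≤ L ^ A := pow_le_pow_right₀ (by linarith) hA
      unfold wT
      push_cast
      rw [← hL]
      linarith
    have hw0 : 0 < (wT A T : ℝ) := lt_of_lt_of_le (by positivity) hw
    rw [mul_one_div, div_le_div_iff₀ hw0 (by positivity)]
    have h5 : (1 + L) ^ K ≤ 2 ^ K * L ^ K := by
      rw [← mul_pow]
      exact pow_le_pow_left₀ (by positivity) (by linarith) _
    calc 2 * ((K : ℝ) + 1) * (T : ℝ) ^ 2 * (1 + L) ^ K * (2 * L ^ 4)
        ≤ 2 * ((K : ℝ) + 1) * (T : ℝ) ^ 2 * (2 ^ K * L ^ K) * (2 * L ^ 4) := by gcongr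
      _ = (T : ℝ) ^ 2 * ((4 * ((K : ℝ) + 1) * 2 ^ K) * L ^ (K + 4)) := by
          rw [pow_add]; ring
      _ ≤ (T : ℝ) ^ 2 * (L * L ^ (K + 4)) := by gcongr
      _ = (T : ℝ) ^ 2 * L ^ (K + 5) := by ring
      _ ≤ (T : ℝ) ^ 2 * (wT A T : ℝ) := by gcongr
  have h6 : (T : ℝ) ^ 2 / (2 * L ^ 4) + (T : ℝ) ^ 2 / (2 * L ^ 4) = (T : ℝ) ^ 2 / L ^ 4 := by
    field_simp
    ring
  linarith

end Pool.Agent.H286.MX
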