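import Pool.Agent.H840.MX.Stm2

/-!
# The twelve points of a cubic and a quartic are in general position (`S_GB`)
-/

set_option autoImplicit false

namespace Pool.Agent.H286.MX

open MvPolynomial Pool.Agent.T2H40.MI Pool.Agent.H840.MX

theorem gb (h1 : S_TRV) (h2 : S_CB) : S_GB := by
  intro F g P p hS hT
  set Q : Fin 12 → Fin 3 → ℂ := Fin.snoc (α := fun _ => Fin 3 → ℂ) P p with hQ
  have Qc : ∀ i : Fin 11, Q i.castSucc = P i := fun i => by
    rw [hQ]; exact Fin.snoc_castSucc (α := fun _ => Fin 3 → ℂ) p P i
  have Ql : Q (Fin.last 11) = p := by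
    rw [hQ]; exact Fin.snoc_last (α := fun _ => Fin 3 → ℂ) p P
  refine
    { cubic := hS
      ne := fun i => ?_
      on := fun i => ?_
      diff := fun i j hij t => ?_
      ne' := ?_
      diff' := fun i t => ?_
      env := fun q hq => ⟨fun h => ?_, fun h f hf hfI => ?_⟩ }
  · have := hT.ne i.castSucc
    rwa [Qc] at this
  · have := hT.zeroF i.castSucc
    rwa [Qc] at this
  · have := hT.diff i.castSucc j.castSucc (fun h => hij (Fin.castSucc_injective 11 h)) t
    rwa [Qc, Qc] at this
  · have := hT.ne (Fin.last 11)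
    rwa [Ql] at this
  · have := hT.diff (Fin.last 11) i.castSucc (Fin.castSucc_lt_last i).ne' t
    rwa [Qc, Ql] at this
  · have hg : eval q g = 0 := by
      refine h g hT.hg (mem_idealOf_hom hT.hg ?_)
      rintro _ ⟨i, rfl⟩
      have := hT.zerog i.castSucc
      rwa [Qc] at this
    have hF : eval q F = 0 := by
      obtain ⟨k, hk⟩ : ∃ k, q k ≠ 0 := by
        by_contra hcon
        push Not at hcon
        exact hq (funext hcon)
      have hh : (F * X k : MvPolynomial (Fin 3) ℂ).IsHomogeneous 4 :=
        hT.hF.mul (isHomogeneous_X ℂ k)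
      have := h (F * X k) hh (mem_idealOf_hom hh (by
        rintro _ ⟨i, rfl⟩
        have := hT.zeroF i.castSucc
        rw [Qc] at this
        rw [map_mul, this, zero_mul]))
      rw [map_mul, eval_X] at this
      exact (mul_eq_zero.1 this).resolve_right hk
    obtain ⟨i, t, hi⟩ := (h1 F g Q hT).1 q hq hF hg
    induction i using Fin.lastCases with
    | last =>
      rw [Ql] at hi
      exact Or.inl ⟨t, hi⟩
    | cast i =>
      rw [Qc] at hi
      exact Or.inr ⟨i, t, hi⟩
  · have hP : ∀ (i : Fin 11) (t : ℂ), eval (t • P i) f = 0 := fun i t =>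
      (mem_idealOf.1 hfI) (P i) ⟨i, rfl⟩ t
    rcases h with ⟨t, rfl⟩ | ⟨i, t, rfl⟩
    · obtain ⟨a, β, hab, -⟩ := h2 F g Q hT 4 f le_rfl hf (fun i hi => by
        induction i using Fin.lastCases with
        | last => exact absurd rfl hi
        | cast i =>
          rw [Qc]
          have := hP i 1
          rwa [one_smul] at this)
      have e1 := hT.zeroF (Fin.last 11)
      have e2 := hT.zerog (Fin.last 11)
      rw [Ql] at e1 e2
      rw [eval_smul_hom hf, hab, map_add, map_mul, map_mul, e1, e2]
      ring
    · exact hP i t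

end Pool.Agent.H286.MX
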